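import Pool.Agent.Helper64.AC.Basic

/-! Pairs of relators one of which is a Baumslag-Solitar relator of type (1, 2). -/

set_option autoImplicit false

namespace Pool.Agent.Helper64.AC

open Function

abbrev F2 : Type := FreeGroup (Fin 2)
def x : F2 := FreeGroup.of 0
def y : F2 := FreeGroup.of 1

theorem hom_ext_xy {H : Type} [Group H] {f g : F2 →* H} (hx : f x = g x) (hy : f y = g y) :
    f = g := by
  refine FreeGroup.ext_hom _ _ fun i => ?_
  fin_cases i
  · exact hx
  · exact hy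

/-- substitution of two elements for `x`, `y` -/
noncomputable def sub {H : Type} [Group H] (a b : H) : F2 →* H := FreeGroup.lift ![a, b]

@[simp] theorem sub_x {H : Type} [Group H] (a b : H) : sub a b x = a := by
  simp [sub, x]
@[simp] theorem sub_y {H : Type} [Group H] (a b : H) : sub a b y = b := by
  simp [sub, y]

/-- an endomorphism which is trivial on the generators modulo `N` is trivial modulo `N` -/
theorem cong_sub {N : Subgroup F2} [N.Normal] {a b : F2} (ha : x⁻¹ * a ∈ N) (hb : y⁻¹ * b ∈ N)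
    (p : F2) : p⁻¹ * sub a b p ∈ N := by
  have h : (QuotientGroup.mk' N).comp (sub a b) = QuotientGroup.mk' N := by
    refine hom_ext_xy ?_ ?_
    · rw [MonoidHom.comp_apply, sub_x]
      exact (QuotientGroup.eq.2 ha).symm
    · rw [MonoidHom.comp_apply, sub_y]
      exact (QuotientGroup.eq.2 hb).symm
  have h1 := DFunLike.congr_fun h p
  rw [MonoidHom.comp_apply] at h1
  exact QuotientGroup.eq.1 h1.symm

theorem mem_self {G : Type} [Group G] (g : G) : g ∈ Subgroup.normalClosure {g} :=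
  Subgroup.subset_normalClosure rfl

theorem mem_conj {G : Type} [Group G] (g h : G) : h * g * h⁻¹ ∈ Subgroup.normalClosure {g} :=
  (inferInstance : (Subgroup.normalClosure {g}).Normal).conj_mem g (mem_self g) h

theorem mem_conj_inv {G : Type} [Group G] (g h : G) : h * g⁻¹ * h⁻¹ ∈ Subgroup.normalClosure {g} :=
  (inferInstance : (Subgroup.normalClosure {g}).Normal).conj_mem g⁻¹
    (Subgroup.inv_mem _ (mem_self g)) h

/-- the pair is Andrews-Curtis equivalent to `(x, y)` -/
def Triv (r : Fin 2 → F2) : Prop := ACEquiv r ![x, y]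

theorem triv_of_map {a b : F2} (h : Triv ![a, b]) {r : Fin 2 → F2} (hr : Triv r) :
    Triv (fun i => sub a b (r i)) := by
  have h1 := ACEquiv.map (sub a b) hr
  have e : (fun i => sub a b (![x, y] i)) = ![a, b] := by
    funext i
    fin_cases i
    · exact sub_x a b
    · exact sub_y a b
  rw [e] at h1
  exact h1.trans h

theorem triv_of_map_pair {a b : F2} (h : Triv ![a, b]) {p q : F2} (hr : Triv ![p, q]) :
    Triv ![sub a b p, sub a b q] := by
  have h1 := triv_of_map h hr
  have e : (fun i => sub a b (![p, q] i)) = ![sub a b p, sub a b q] := by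
    funext i
    fin_cases i <;> rfl
  rwa [e] at h1

/-- the Baumslag-Solitar relator `y² x⁻¹ y⁻¹ x` -/
def bs : F2 := y ^ 2 * x⁻¹ * y⁻¹ * x

/-- `x y^m` and the BS relator -/
theorem triv_bs_special (m : ℤ) : Triv ![bs, x * y ^ m] := by
  -- modulo x y^m
  have h1 : ACEquiv ![bs, x * y ^ m] ![y, x * y ^ m] := by
    have h2 := cong_sub (N := Subgroup.normalClosure {x * y ^ m}) (a := y ^ (-m)) (b := y)
      (by
        have e : x⁻¹ * y ^ (-m) = x⁻¹ * (x * y ^ m)⁻¹ * x⁻¹⁻¹ := by group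
        rw [e]
        exact mem_conj_inv _ _) (by simp) bs
    have e : sub (y ^ (-m)) y bs = y := by
      unfold bs
      simp only [map_mul, map_pow, map_inv, sub_x, sub_y]
      group
    rw [e] at h2
    exact pair_left h2
  have h3 : ACEquiv ![y, x * y ^ m] ![y, x] := by
    refine pair_right ?_
    have e : (x * y ^ m)⁻¹ * x = y ^ (-m) := by group
    rw [e]
    exact Subgroup.zpow_mem _ (mem_self y) _
  exact h1.trans (h3.trans (pair_swap y x))

section NF

variable {H : Type} [Group H] (C E : H)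

/-- normal form in the Baumslag-Solitar group -/
def NF (h : H) (s : ℤ) : Prop :=
  ∃ (i j : ℕ) (m : ℤ), h = C ^ i * E ^ m * (C ^ j)⁻¹ ∧ s = i - j

variable {C E}

theorem push (hE : C⁻¹ * E * C = E ^ 2) (k : ℕ) (m : ℤ) :
    E ^ m * C ^ k = C ^ k * E ^ (m * 2 ^ k) := by
  have h1 : ∀ m : ℤ, E ^ m * C = C * E ^ (m * 2) := by
    intro m
    have h2 : C⁻¹ * E ^ m * C = E ^ (m * 2) := by
      have h3 : (C⁻¹ * E * C) ^ m = C⁻¹ * E ^ m * C := by
        have := conj_zpow (a := C⁻¹) (b := E) (i := m)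
        rwa [inv_inv] at this
      rw [← h3, hE, ← zpow_natCast, ← zpow_mul]
      push_cast
      rw [mul_comm]
    rw [← h2]
    group
  induction k with
  | zero => simp
  | succ k ih =>
    rw [pow_succ, ← mul_assoc, ih, mul_assoc, h1, ← mul_assoc]
    congr 2
    ring

theorem NF.mul (hE : C⁻¹ * E * C = E ^ 2) {g h : H} {s t : ℤ} (hg : NF C E g s) (hh : NF C E h t) :
    NF C E (g * h) (s + t) := by
  obtain ⟨i, j, m, rfl, rfl⟩ := hg
  obtain ⟨k, l, n, rfl, rfl⟩ := hh
  rcases le_total j k with hjk | hjk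
  · obtain ⟨d, rfl⟩ := Nat.exists_eq_add_of_le hjk
    refine ⟨i + d, l, m * 2 ^ d + n, ?_, by push_cast; ring⟩
    have h1 := push hE d m
    calc C ^ i * E ^ m * (C ^ j)⁻¹ * (C ^ (j + d) * E ^ n * (C ^ l)⁻¹)
        = C ^ i * (E ^ m * C ^ d) * E ^ n * (C ^ l)⁻¹ := by rw [pow_add]; group
      _ = C ^ i * (C ^ d * E ^ (m * 2 ^ d)) * E ^ n * (C ^ l)⁻¹ := by rw [h1]
      _ = C ^ (i + d) * E ^ (m * 2 ^ d + n) * (C ^ l)⁻¹ := by
          rw [pow_add, zpow_add]; simp only [mul_assoc]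
  · obtain ⟨d, rfl⟩ := Nat.exists_eq_add_of_le hjk
    refine ⟨i, d + l, m + n * 2 ^ d, ?_, by push_cast; ring⟩
    have h1 := push hE d n
    have h2 : (C ^ d)⁻¹ * E ^ n = E ^ (n * 2 ^ d) * (C ^ d)⁻¹ := by
      rw [inv_mul_eq_iff_eq_mul, ← mul_assoc, ← h1, mul_inv_cancel_right]
    calc C ^ i * E ^ m * (C ^ (k + d))⁻¹ * (C ^ k * E ^ n * (C ^ l)⁻¹)
        = C ^ i * E ^ m * ((C ^ d)⁻¹ * E ^ n) * (C ^ l)⁻¹ := by
          rw [pow_add, mul_inv_rev]; group
      _ = C ^ i * E ^ m * (E ^ (n * 2 ^ d) * (C ^ d)⁻¹) * (C ^ l)⁻¹ := by rw [h2]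
      _ = C ^ i * E ^ (m + n * 2 ^ d) * (C ^ (d + l))⁻¹ := by
          rw [zpow_add, add_comm d l, pow_add, mul_inv_rev]; simp only [mul_assoc]

theorem NF.inv {g : H} {s : ℤ} (hg : NF C E g s) : NF C E g⁻¹ (-s) := by
  obtain ⟨i, j, m, rfl, rfl⟩ := hg
  refine ⟨j, i, -m, ?_, by ring⟩
  rw [mul_inv_rev, mul_inv_rev, inv_inv, zpow_neg, mul_assoc]

end NF

/-- exponent sum of `x` -/
noncomputable def sx : F2 →* Multiplicative ℤ := sub (Multiplicative.ofAdd 1) 1

theorem nf_all {H : Type} [Group H] {C E : H} (hE : C⁻¹ * E * C = E ^ 2) (p : F2) :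
    NF C E (sub C E p) (Multiplicative.toAdd (sx p)) := by
  induction p using FreeGroup.induction_on with
  | C1 => exact ⟨0, 0, 0, by simp, by simp⟩
  | of i =>
    fin_cases i
    · refine ⟨1, 0, 0, ?_, ?_⟩
      · have : sub C E x = C := sub_x C E
        simpa [x] using this
      · have : sx x = Multiplicative.ofAdd 1 := sub_x _ _
        have h2 : sx (FreeGroup.of 0) = Multiplicative.ofAdd 1 := this
        simp [h2]
    · refine ⟨0, 0, 1, ?_, ?_⟩
      · have : sub C E y = E := sub_y C E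
        simpa [y] using this
      · have : sx y = 1 := sub_y _ _
        have h2 : sx (FreeGroup.of 1) = 1 := this
        simp [h2]
  | inv_of i ih =>
    rw [map_inv, map_inv, toAdd_inv]
    exact ih.inv
  | mul a b iha ihb =>
    rw [map_mul, map_mul, toAdd_mul]
    exact NF.mul hE iha ihb

/-- Every pair consisting of the BS relator and an element of `x`-exponent sum one is trivial. -/
theorem triv_bs_one {p : F2} (hp : sx p = Multiplicative.ofAdd 1) : Triv ![bs, p] := by
  set N := Subgroup.normalClosure {bs} with hN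
  have hE : (QuotientGroup.mk' N x)⁻¹ * QuotientGroup.mk' N y * QuotientGroup.mk' N x =
      (QuotientGroup.mk' N y) ^ 2 := by
    rw [← map_inv, ← map_mul, ← map_mul, ← map_pow]
    refine QuotientGroup.eq.2 ?_
    have e : (x⁻¹ * y * x)⁻¹ * y ^ 2 = x⁻¹ * y⁻¹ * x * bs * (x⁻¹ * y⁻¹ * x)⁻¹ := by
      unfold bs; group
    rw [e]
    exact mem_conj _ _
  obtain ⟨i, j, m, h1, h2⟩ := nf_all hE p
  rw [hp, toAdd_ofAdd] at h2
  have hij : i = j + 1 := by omega
  subst hij
  have e0 : sub (QuotientGroup.mk' N x) (QuotientGroup.mk' N y) = QuotientGroup.mk' N :=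
    hom_ext_xy (sub_x _ _) (sub_y _ _)
  rw [e0] at h1
  have h3 : QuotientGroup.mk' N p = QuotientGroup.mk' N (x ^ (j + 1) * y ^ m * (x ^ j)⁻¹) := by
    rw [h1]
    simp only [map_mul, map_pow, map_inv, map_zpow]
  have h4 : p⁻¹ * (x ^ (j + 1) * y ^ m * (x ^ j)⁻¹) ∈ N := QuotientGroup.eq.1 h3
  have h5 := pair_right h4
  have h6 := pair_conj_right bs (x ^ (j + 1) * y ^ m * (x ^ j)⁻¹) (x ^ j)⁻¹
  have e : (x ^ j)⁻¹ * (x ^ (j + 1) * y ^ m * (x ^ j)⁻¹) * (x ^ j)⁻¹⁻¹ = x * y ^ m := by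
    rw [pow_succ]; group
  rw [e] at h6
  exact h5.trans (h6.trans (triv_bs_special m))

theorem triv_bs {p : F2} (hp : sx p = Multiplicative.ofAdd 1 ∨ sx p = Multiplicative.ofAdd (-1)) :
    Triv ![bs, p] := by
  rcases hp with hp | hp
  · exact triv_bs_one hp
  · refine (pair_inv_right bs p).trans (triv_bs_one ?_)
    rw [map_inv, hp]
    rfl

end Pool.Agent.Helper64.AC
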