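import Mathlib

/-! Andrews-Curtis moves on finite families of elements of a group. -/

set_option autoImplicit false

namespace Pool.Agent.Helper64.AC

open Function

variable {ι G : Type} [DecidableEq ι] [Group G]

/-- Elementary Andrews-Curtis moves on a family of elements of a group: invert a member, multiply a
member by another member, conjugate a member. -/
inductive Move : (ι → G) → (ι → G) → Prop
  | inv (r : ι → G) (i : ι) : Move r (update r i (r i)⁻¹)
  | mul (r : ι → G) (i j : ι) : i ≠ j → Move r (update r i (r i * r j))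
  | conj (r : ι → G) (i : ι) (g : G) : Move r (update r i (g * r i * g⁻¹))

/-- Andrews-Curtis equivalence. -/
def ACEquiv (r s : ι → G) : Prop := Relation.EqvGen Move r s

theorem ACEquiv.refl (r : ι → G) : ACEquiv r r := Relation.EqvGen.refl r
theorem ACEquiv.symm {r s : ι → G} (h : ACEquiv r s) : ACEquiv s r := Relation.EqvGen.symm _ _ h
theorem ACEquiv.trans {r s t : ι → G} (h : ACEquiv r s) (h' : ACEquiv s t) : ACEquiv r t :=
  Relation.EqvGen.trans _ _ _ h h'
theorem Move.eqv {r s : ι → G} (h : Move r s) : ACEquiv r s := Relation.EqvGen.rel _ _ h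

theorem ac_inv (r : ι → G) (i : ι) : ACEquiv r (update r i (r i)⁻¹) := (Move.inv r i).eqv

theorem ac_conj (r : ι → G) (i : ι) (g : G) : ACEquiv r (update r i (g * r i * g⁻¹)) :=
  (Move.conj r i g).eqv

theorem ac_mul (r : ι → G) {i j : ι} (h : i ≠ j) : ACEquiv r (update r i (r i * r j)) :=
  (Move.mul r i j h).eqv

/-- multiplication by a conjugate of another member -/
theorem ac_mul_conj (r : ι → G) {i j : ι} (h : i ≠ j) (g : G) :
    ACEquiv r (update r i (r i * (g * r j * g⁻¹))) := by
  have h1 := ac_conj r j g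
  have h2 := ac_mul (update r j (g * r j * g⁻¹)) h
  have h3 := ac_conj (update (update r j (g * r j * g⁻¹)) i
    (update r j (g * r j * g⁻¹) i * update r j (g * r j * g⁻¹) j)) j g⁻¹
  refine (h1.trans (h2.trans h3)).trans ?_
  have e : update (update (update r j (g * r j * g⁻¹)) i
      (update r j (g * r j * g⁻¹) i * update r j (g * r j * g⁻¹) j)) j
      (g⁻¹ * update (update r j (g * r j * g⁻¹)) i
        (update r j (g * r j * g⁻¹) i * update r j (g * r j * g⁻¹) j) j * g⁻¹⁻¹) =
      update r i (r i * (g * r j * g⁻¹)) := by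
    funext k
    by_cases hk : k = j
    · subst hk
      simp [h.symm, mul_assoc]
    · by_cases hk' : k = i
      · subst hk'
        simp [h]
      · simp [hk, hk']
  rw [e]
  exact ACEquiv.refl _

theorem ac_mul_conj_inv (r : ι → G) {i j : ι} (h : i ≠ j) (g : G) :
    ACEquiv r (update r i (r i * (g * (r j)⁻¹ * g⁻¹))) := by
  have h1 := ac_mul_conj (update r i (r i * (g * (r j)⁻¹ * g⁻¹))) h g
  have e : update (update r i (r i * (g * (r j)⁻¹ * g⁻¹))) i
      (update r i (r i * (g * (r j)⁻¹ * g⁻¹)) i *
        (g * update r i (r i * (g * (r j)⁻¹ * g⁻¹)) j * g⁻¹)) = r := by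
    funext k
    by_cases hk : k = i
    · subst hk
      simp [h.symm, mul_assoc]
    · simp [hk]
  rw [e] at h1
  exact h1.symm

/-- multiplication by an element of the normal closure of the other members -/
theorem ac_normal (r : ι → G) (i : ι) {n : G}
    (hn : n ∈ Subgroup.normalClosure {g | ∃ j, j ≠ i ∧ g = r j}) :
    ACEquiv r (update r i (r i * n)) := by
  have key : ∀ n ∈ Subgroup.normalClosure {g | ∃ j, j ≠ i ∧ g = r j}, ∀ a : G,
      ACEquiv (update r i a) (update r i (a * n)) := by
    intro n hn
    unfold Subgroup.normalClosure at hn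
    induction hn using Subgroup.closure_induction with
    | mem y hy =>
      intro a
      rw [Group.mem_conjugatesOfSet_iff] at hy
      obtain ⟨b, ⟨j, hj, rfl⟩, hy⟩ := hy
      rw [isConj_iff] at hy
      obtain ⟨c, rfl⟩ := hy
      have h1 := ac_mul_conj (update r i a) (i := i) (j := j) (Ne.symm hj) c
      simpa [hj] using h1
    | one => intro a; rw [mul_one]; exact ACEquiv.refl _
    | mul y z _ _ ihy ihz =>
      intro a
      have := (ihy a).trans (ihz (a * y))
      rwa [mul_assoc] at this
    | inv y _ ih =>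
      intro a
      have := (ih (a * y⁻¹)).symm
      rwa [inv_mul_cancel_right] at this
  have := key n hn (r i)
  rwa [update_eq_self] at this

/-- Andrews-Curtis moves are preserved by homomorphisms -/
theorem ACEquiv.map {H : Type} [Group H] (f : G →* H) {r s : ι → G} (h : ACEquiv r s) :
    ACEquiv (fun i => f (r i)) (fun i => f (s i)) := by
  unfold ACEquiv at h
  induction h with
  | rel r s h =>
    cases h with
    | inv i =>
      have e : (fun k => f (update r i (r i)⁻¹ k)) = update (fun k => f (r k)) i (f (r i))⁻¹ := by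
        funext k
        by_cases hk : k = i
        · subst hk; simp
        · simp [hk]
      rw [e]
      exact ac_inv (fun k => f (r k)) i
    | mul i j hij =>
      have e : (fun k => f (update r i (r i * r j) k)) =
          update (fun k => f (r k)) i (f (r i) * f (r j)) := by
        funext k
        by_cases hk : k = i
        · subst hk; simp
        · simp [hk]
      rw [e]
      exact ac_mul (fun k => f (r k)) hij
    | conj i g =>
      have e : (fun k => f (update r i (g * r i * g⁻¹) k)) =
          update (fun k => f (r k)) i (f g * f (r i) * (f g)⁻¹) := by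
        funext k
        by_cases hk : k = i
        · subst hk; simp
        · simp [hk]
      rw [e]
      exact ac_conj (fun k => f (r k)) i (f g)
  | refl r => exact ACEquiv.refl _
  | symm r s _ ih => exact ih.symm
  | trans r s t _ _ ih1 ih2 => exact ih1.trans ih2

/-! ### pairs -/

theorem pair_right {p q q' : G} (h : q⁻¹ * q' ∈ Subgroup.normalClosure {p}) :
    ACEquiv ![p, q] ![p, q'] := by
  have h1 := ac_normal ![p, q] 1 (n := q⁻¹ * q') (by
    refine Subgroup.normalClosure_mono ?_ h
    rintro _ rfl
    exact ⟨0, by decide, rfl⟩)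
  have e : update ![p, q] 1 (![p, q] 1 * (q⁻¹ * q')) = ![p, q'] := by
    funext k
    fin_cases k <;> simp
  rwa [e] at h1

theorem pair_left {p p' q : G} (h : p⁻¹ * p' ∈ Subgroup.normalClosure {q}) :
    ACEquiv ![p, q] ![p', q] := by
  have h1 := ac_normal ![p, q] 0 (n := p⁻¹ * p') (by
    refine Subgroup.normalClosure_mono ?_ h
    rintro _ rfl
    exact ⟨1, by decide, rfl⟩)
  have e : update ![p, q] 0 (![p, q] 0 * (p⁻¹ * p')) = ![p', q] := by
    funext k
    fin_cases k <;> simp
  rwa [e] at h1

theorem pair_conj_left (p q g : G) : ACEquiv ![p, q] ![g * p * g⁻¹, q] := by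
  have h1 := ac_conj ![p, q] 0 g
  have e : update ![p, q] 0 (g * ![p, q] 0 * g⁻¹) = ![g * p * g⁻¹, q] := by
    funext k
    fin_cases k <;> simp
  rwa [e] at h1

theorem pair_conj_right (p q g : G) : ACEquiv ![p, q] ![p, g * q * g⁻¹] := by
  have h1 := ac_conj ![p, q] 1 g
  have e : update ![p, q] 1 (g * ![p, q] 1 * g⁻¹) = ![p, g * q * g⁻¹] := by
    funext k
    fin_cases k <;> simp
  rwa [e] at h1

theorem pair_inv_left (p q : G) : ACEquiv ![p, q] ![p⁻¹, q] := by
  have h1 := ac_inv ![p, q] 0
  have e : update ![p, q] 0 (![p, q] 0)⁻¹ = ![p⁻¹, q] := by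
    funext k
    fin_cases k <;> simp
  rwa [e] at h1

theorem pair_inv_right (p q : G) : ACEquiv ![p, q] ![p, q⁻¹] := by
  have h1 := ac_inv ![p, q] 1
  have e : update ![p, q] 1 (![p, q] 1)⁻¹ = ![p, q⁻¹] := by
    funext k
    fin_cases k <;> simp
  rwa [e] at h1

theorem pair_mul_left (p q : G) : ACEquiv ![p, q] ![p * q, q] := by
  refine pair_left ?_
  rw [inv_mul_cancel_left]
  exact Subgroup.subset_normalClosure rfl

theorem pair_mul_right (p q : G) : ACEquiv ![p, q] ![p, q * p] := by
  refine pair_right ?_
  rw [inv_mul_cancel_left]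
  exact Subgroup.subset_normalClosure rfl

/-- exchanging the two members -/
theorem pair_swap (p q : G) : ACEquiv ![p, q] ![q, p] := by
  -- (p, q) ~ (p, q p) ~ (p (q p)⁻¹ ...)
  have h1 : ACEquiv ![p, q] ![p, q * p] := pair_mul_right p q
  have h2 : ACEquiv ![p, q * p] ![p⁻¹, q * p] := pair_inv_left _ _
  have h3 : ACEquiv ![p⁻¹, q * p] ![p⁻¹ * (q * p), q * p] := pair_mul_left _ _
  have h4 : ACEquiv ![p⁻¹ * (q * p), q * p] ![q, q * p] := by
    have := pair_conj_left (p⁻¹ * (q * p)) (q * p) p
    have e : p * (p⁻¹ * (q * p)) * p⁻¹ = q := by group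
    rwa [e] at this
  have h5 : ACEquiv ![q, q * p] ![q, p] := by
    refine pair_right ?_
    have e : (q * p)⁻¹ * p = p⁻¹ * q⁻¹ * (p⁻¹)⁻¹ := by
      rw [mul_inv_rev, inv_inv]
    rw [e]
    have h6 : q⁻¹ ∈ Subgroup.normalClosure {q} :=
      Subgroup.inv_mem _ (Subgroup.subset_normalClosure rfl)
    exact (inferInstance : (Subgroup.normalClosure {q}).Normal).conj_mem q⁻¹ h6 p⁻¹
  exact h1.trans (h2.trans (h3.trans (h4.trans h5)))

end Pool.Agent.Helper64.AC
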