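import Pool.Agent.Helper64.AC.BS

/-! Three infinite families of killers of the trefoil group. -/

set_option autoImplicit false

namespace Pool.Agent.Helper64.AC

open Function

section chains

variable {G : Type} [Group G]

/-- trefoil relator in the generators `A`, `c`: `A⁻¹ c A = A c⁻¹ A⁻¹ c` -/
def rac (A c : G) : G := (A⁻¹ * c * A)⁻¹ * (A * c⁻¹ * A⁻¹ * c)

/-- `e² c⁻¹ e⁻¹ c` -/
def bsr (c e : G) : G := e ^ 2 * c⁻¹ * e⁻¹ * c

theorem chain2 (A c : G) (m : ℤ) :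
    ACEquiv ![rac A c, A * A * c ^ m * A⁻¹ * c] ![rac A c, bsr c (c ^ m * A)] := by
  have h1 := pair_conj_right (rac A c) (A * A * c ^ m * A⁻¹ * c) A⁻¹
  have e1 : A⁻¹ * (A * A * c ^ m * A⁻¹ * c) * A⁻¹⁻¹ = A * c ^ m * (A⁻¹ * c * A) := by group
  rw [e1] at h1
  have h2 : ACEquiv ![rac A c, A * c ^ m * (A⁻¹ * c * A)]
      ![rac A c, A * c ^ m * (A * c⁻¹ * A⁻¹ * c)] := by
    refine pair_right ?_
    have e : (A * c ^ m * (A⁻¹ * c * A))⁻¹ * (A * c ^ m * (A * c⁻¹ * A⁻¹ * c)) = rac A c := by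
      unfold rac; group
    rw [e]
    exact mem_self _
  have h3 := pair_conj_right (rac A c) (A * c ^ m * (A * c⁻¹ * A⁻¹ * c)) (c ^ m)
  have e3 : c ^ m * (A * c ^ m * (A * c⁻¹ * A⁻¹ * c)) * (c ^ m)⁻¹ = bsr c (c ^ m * A) := by
    unfold bsr
    rw [sq]
    group
  rw [e3] at h3
  exact h1.trans (h2.trans h3)

theorem chain3 (A c : G) (j : ℤ) :
    ACEquiv ![rac A c, A * c ^ j * A⁻¹ * c * A * c ^ j]
      ![A * c ^ (-(j + 1)) * A⁻¹ * c ^ j, bsr c (A * c ^ (2 * j))] := by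
  set U := A * c ^ j * A⁻¹ * c * A * c ^ j with hU
  set U1 := A * c ^ j * (A * c⁻¹ * A⁻¹ * c) * c ^ j with hU1
  have h1 := pair_conj_left (rac A c) U (c ^ (-j))
  have e1 : c ^ (-j) * rac A c * (c ^ (-j))⁻¹ = U⁻¹ * U1 := by
    rw [hU, hU1]; unfold rac; group
  rw [e1] at h1
  have h2 : ACEquiv ![U⁻¹ * U1, U] ![U1, U] := by
    refine pair_left ?_
    have e : (U⁻¹ * U1)⁻¹ * U1 = U1⁻¹ * U * U1⁻¹⁻¹ := by group
    rw [e]
    exact mem_conj _ _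
  set S := A * c ^ (-(j + 1)) * A⁻¹ * c ^ j with hS
  have h3 : ACEquiv ![U1, U] ![c⁻¹ * S * c⁻¹⁻¹, U] := by
    refine pair_left ?_
    have e : U1⁻¹ * (c⁻¹ * S * c⁻¹⁻¹) =
        (A * c⁻¹ * A⁻¹ * c ^ (j + 1))⁻¹ * U⁻¹ * (A * c⁻¹ * A⁻¹ * c ^ (j + 1))⁻¹⁻¹ := by
      rw [hU, hU1, hS]; group
    rw [e]
    exact mem_conj_inv _ _
  have h4 : ACEquiv ![S, U] ![c⁻¹ * S * c⁻¹⁻¹, U] := pair_conj_left S U c⁻¹
  set U2 := c ^ j * A * c⁻¹ * A⁻¹ * c * A * c ^ j with hU2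
  have h5 : ACEquiv ![S, U] ![S, U2] := by
    refine pair_right ?_
    have e : U⁻¹ * U2 = (A * c⁻¹ * A⁻¹ * c * A * c ^ j)⁻¹ * S *
        (A * c⁻¹ * A⁻¹ * c * A * c ^ j)⁻¹⁻¹ := by
      rw [hU, hU2, hS]; group
    rw [e]
    exact mem_conj _ _
  have h6 := pair_conj_right S U2 (A * c ^ j)
  have e6 : A * c ^ j * U2 * (A * c ^ j)⁻¹ = bsr c (A * c ^ (2 * j)) := by
    rw [hU2]; unfold bsr; rw [sq]; group
  rw [e6] at h6
  exact h1.trans (h2.trans (h3.trans (h4.symm.trans (h5.trans h6))))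

end chains

/-- the trefoil relator `x y x y⁻¹ x⁻¹ y⁻¹` -/
def tref : F2 := x * y * x * y⁻¹ * x⁻¹ * y⁻¹

theorem tref_rac (q : F2) : ACEquiv ![tref, q] ![rac x⁻¹ (x⁻¹ * y), q] := by
  have h1 := pair_conj_left (rac x⁻¹ (x⁻¹ * y)) q (x⁻¹⁻¹ ^ 2 * (x⁻¹ * y))
  have e : x⁻¹⁻¹ ^ 2 * (x⁻¹ * y) * rac x⁻¹ (x⁻¹ * y) * (x⁻¹⁻¹ ^ 2 * (x⁻¹ * y))⁻¹ = tref := by
    unfold rac tref; rw [sq]; group
  rw [e] at h1
  exact h1.symm

theorem triv_basis : Triv ![x⁻¹ * y, x⁻¹] := by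
  have h1 : ACEquiv ![x⁻¹ * y, x⁻¹] ![y, x⁻¹] := by
    refine pair_left ?_
    have e : (x⁻¹ * y)⁻¹ * y = y⁻¹ * x⁻¹⁻¹ * y⁻¹⁻¹ := by group
    rw [e]
    exact mem_conj_inv _ _
  exact h1.trans ((pair_inv_right _ _).trans (by rw [inv_inv]; exact pair_swap _ _))

theorem triv_basis2 (m n : ℤ) : Triv ![x⁻¹ * y, (x⁻¹ * y) ^ m * x⁻¹ * (x⁻¹ * y) ^ n] := by
  refine ACEquiv.trans (s := ![x⁻¹ * y, x⁻¹]) ?_ triv_basis
  set c := x⁻¹ * y with hc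
  have h1 := pair_conj_right c (c ^ m * x⁻¹ * c ^ n) (c ^ m)⁻¹
  have e : (c ^ m)⁻¹ * (c ^ m * x⁻¹ * c ^ n) * (c ^ m)⁻¹⁻¹ = x⁻¹ * c ^ (m + n) := by
    rw [inv_inv, add_comm, zpow_add]; group
  rw [e] at h1
  refine h1.trans (pair_right ?_)
  have e2 : (x⁻¹ * c ^ (m + n))⁻¹ * x⁻¹ = c ^ (-(m + n)) := by group
  rw [e2]
  exact Subgroup.zpow_mem _ (mem_self c) _

theorem sub_bs {H : Type} [Group H] (c e : H) : sub c e bs = bsr c e := by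
  unfold bs bsr
  simp only [map_mul, map_pow, map_inv, sub_x, sub_y]

/-- a pair consisting of a BS relator in a basis and an element of the right exponent sum -/
theorem triv_bsr {c e : F2} (hce : Triv ![c, e]) {p : F2}
    (hp : sx p = Multiplicative.ofAdd 1 ∨ sx p = Multiplicative.ofAdd (-1)) {q : F2}
    (hq : sub c e p = q) : Triv ![q, bsr c e] := by
  have h := triv_of_map_pair hce (triv_bs hp)
  rw [sub_bs, hq] at h
  exact (pair_swap _ _).trans h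

/-- family 2 -/
theorem triv_two (m : ℤ) : Triv ![tref, x⁻¹ * x⁻¹ * (x⁻¹ * y) ^ m * y] := by
  have e : x⁻¹ * x⁻¹ * (x⁻¹ * y) ^ m * y = x⁻¹ * x⁻¹ * (x⁻¹ * y) ^ m * x⁻¹⁻¹ * (x⁻¹ * y) := by group
  rw [e]
  refine (tref_rac _).trans ((chain2 x⁻¹ (x⁻¹ * y) m).trans ?_)
  have hb := triv_basis2 m 0
  rw [zpow_zero, mul_one] at hb
  refine triv_bsr hb (p := rac (x ^ (-m) * y) x) (Or.inr ?_) ?_
  · unfold rac
    simp only [map_mul, map_inv, map_zpow, sx, sub_x, sub_y]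
    rw [← ofAdd_zsmul]
    simp only [mul_one, mul_inv_rev, inv_inv, ← ofAdd_neg, ← ofAdd_add]
    congr 1
    simp
  · unfold rac
    simp only [map_mul, map_inv, map_zpow, sub_x, sub_y]
    have e2 : (x⁻¹ * y) ^ (-m) * ((x⁻¹ * y) ^ m * x⁻¹) = x⁻¹ := by group
    rw [e2]

/-- family 3 -/
theorem triv_three (j : ℤ) :
    Triv ![tref, x⁻¹ * (x⁻¹ * y) ^ j * y * x⁻¹ * (x⁻¹ * y) ^ j] := by
  have e : x⁻¹ * (x⁻¹ * y) ^ j * y * x⁻¹ * (x⁻¹ * y) ^ j =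
      x⁻¹ * (x⁻¹ * y) ^ j * x⁻¹⁻¹ * (x⁻¹ * y) * x⁻¹ * (x⁻¹ * y) ^ j := by group
  rw [e]
  refine (tref_rac _).trans ((chain3 x⁻¹ (x⁻¹ * y) j).trans ?_)
  have hb := triv_basis2 0 (2 * j)
  rw [zpow_zero, one_mul] at hb
  refine triv_bsr hb (p := y * x ^ (-(j + 1)) * y⁻¹ * x ^ j) (Or.inr ?_) ?_
  · simp only [map_mul, map_inv, map_zpow, sx, sub_x, sub_y]
    rw [← ofAdd_zsmul, ← ofAdd_zsmul]
    simp only [mul_one, one_mul, inv_one, ← ofAdd_add]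
    congr 1
    simp
  · simp only [map_mul, map_inv, map_zpow, sub_x, sub_y]
    group

/-- family 1 -/
theorem triv_one (k : ℤ) : Triv ![tref, x⁻¹ * (x⁻¹ * y) ^ k] := by
  refine (tref_rac _).trans ?_
  set c := x⁻¹ * y with hc
  -- in the basis
  have h0 : Triv ![rac x y, x * y ^ k] := by
    have h1 : ACEquiv ![rac x y, x * y ^ k] ![y⁻¹, x * y ^ k] := by
      have h2 := cong_sub (N := Subgroup.normalClosure {x * y ^ k}) (a := y ^ (-k)) (b := y)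
        (by
          have e : x⁻¹ * y ^ (-k) = x⁻¹ * (x * y ^ k)⁻¹ * x⁻¹⁻¹ := by group
          rw [e]
          exact mem_conj_inv _ _) (by simp) (rac x y)
      have e : sub (y ^ (-k)) y (rac x y) = y⁻¹ := by
        unfold rac
        simp only [map_mul, map_inv, sub_x, sub_y]
        group
      rw [e] at h2
      exact pair_left h2
    have h3 : ACEquiv ![y⁻¹, x * y ^ k] ![y⁻¹, x] := by
      refine pair_right ?_
      have e : (x * y ^ k)⁻¹ * x = y⁻¹ ^ k := by group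
      rw [e]
      exact Subgroup.zpow_mem _ (mem_self y⁻¹) _
    refine h1.trans (h3.trans ((pair_inv_left _ _).trans ?_))
    rw [inv_inv]
    exact pair_swap y x
  have hb : Triv ![x⁻¹, c] := (pair_swap _ _).trans triv_basis
  have h := triv_of_map_pair hb h0
  have e1 : sub x⁻¹ c (rac x y) = rac x⁻¹ c := by
    unfold rac; simp only [map_mul, map_inv, sub_x, sub_y]
  have e2 : sub x⁻¹ c (x * y ^ k) = x⁻¹ * c ^ k := by
    simp only [map_mul, map_zpow, sub_x, sub_y]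
  rwa [e1, e2] at h

end Pool.Agent.Helper64.AC
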