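import Pool.Agent.Helper64.AC.Fam

/-! Stabilised presentations on three generators. -/

set_option autoImplicit false

namespace Pool.Agent.Helper64.AC

open Function

section general

variable {ι G : Type} [DecidableEq ι] [Group G]

theorem ac_update (r : ι → G) (i : ι) {b : G}
    (h : (r i)⁻¹ * b ∈ Subgroup.normalClosure {g | ∃ j, j ≠ i ∧ g = r j}) :
    ACEquiv r (update r i b) := by
  have := ac_normal r i h
  rwa [mul_inv_cancel_left] at this

theorem ac_update1 (r : ι → G) {i j : ι} (hij : j ≠ i) {b : G}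
    (h : (r i)⁻¹ * b ∈ Subgroup.normalClosure {r j}) :
    ACEquiv r (update r i b) := by
  refine ac_update r i (Subgroup.normalClosure_mono ?_ h)
  rintro _ rfl
  exact ⟨j, hij, rfl⟩

theorem ac_inv' (r : ι → G) (i : ι) {b : G} (h : b = (r i)⁻¹) : ACEquiv r (update r i b) := by
  subst h; exact ac_inv r i

theorem ac_conj' (r : ι → G) (i : ι) (g : G) {b : G} (h : b = g * r i * g⁻¹) :
    ACEquiv r (update r i b) := by
  subst h; exact ac_conj r i g

/-- exchange of two members -/
theorem ac_swap (r : ι → G) {i j : ι} (hij : i ≠ j) :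
    ACEquiv r (update (update r i (r j)) j (r i)) := by
  have h1 : ACEquiv r (update r j (r j * r i)) := ac_mul r hij.symm
  set r1 := update r j (r j * r i) with hr1
  have h2 : ACEquiv r1 (update r1 i (r i)⁻¹) := ac_inv' r1 i (by simp [hr1, hij])
  set r2 := update r1 i (r i)⁻¹ with hr2
  have h3 : ACEquiv r2 (update r2 i ((r i)⁻¹ * (r j * r i))) := by
    have := ac_mul r2 hij
    have e : r2 i * r2 j = (r i)⁻¹ * (r j * r i) := by simp [hr2, hr1, hij.symm]
    rwa [e] at this
  set r3 := update r2 i ((r i)⁻¹ * (r j * r i)) with hr3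
  have h4 : ACEquiv r3 (update r3 i (r j)) := ac_conj' r3 i (r i) (by
    simp [hr3, mul_assoc])
  set r4 := update r3 i (r j) with hr4
  have h5 : ACEquiv r4 (update r4 j (r i)) := by
    refine ac_update1 r4 hij ?_
    have e1 : r4 j = r j * r i := by simp [hr4, hr3, hr2, hr1, hij.symm]
    have e2 : r4 i = r j := by simp [hr4]
    rw [e1, e2]
    have e : (r j * r i)⁻¹ * r i = (r i)⁻¹ * (r j)⁻¹ * ((r i)⁻¹)⁻¹ := by
      rw [mul_inv_rev, inv_inv]
    rw [e]
    exact mem_conj_inv _ _
  have e : update r4 j (r i) = update (update r i (r j)) j (r i) := by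
    funext k
    by_cases hk : k = j
    · subst hk; simp
    · by_cases hk' : k = i
      · subst hk'; simp [hr4, hk]
      · simp [hr4, hr3, hr2, hr1, hk, hk']
  rw [e] at h5
  exact h1.trans (h2.trans (h3.trans (h4.trans h5)))

/-! triples -/

theorem tr0 {a b c a' : G} (h : a⁻¹ * a' ∈ Subgroup.normalClosure {b}) :
    ACEquiv ![a, b, c] ![a', b, c] := by
  have h1 := ac_update1 ![a, b, c] (i := 0) (j := 1) (by decide) (b := a') h
  have e : update ![a, b, c] 0 a' = ![a', b, c] := by funext k; fin_cases k <;> simp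
  rwa [e] at h1

theorem tr0' {a b c a' : G} (h : a⁻¹ * a' ∈ Subgroup.normalClosure {c}) :
    ACEquiv ![a, b, c] ![a', b, c] := by
  have h1 := ac_update1 ![a, b, c] (i := 0) (j := 2) (by decide) (b := a') h
  have e : update ![a, b, c] 0 a' = ![a', b, c] := by funext k; fin_cases k <;> simp
  rwa [e] at h1

theorem tr1 {a b c b' : G} (h : b⁻¹ * b' ∈ Subgroup.normalClosure {a}) :
    ACEquiv ![a, b, c] ![a, b', c] := by
  have h1 := ac_update1 ![a, b, c] (i := 1) (j := 0) (by decide) (b := b') h
  have e : update ![a, b, c] 1 b' = ![a, b', c] := by funext k; fin_cases k <;> simp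
  rwa [e] at h1

theorem tr1' {a b c b' : G} (h : b⁻¹ * b' ∈ Subgroup.normalClosure {c}) :
    ACEquiv ![a, b, c] ![a, b', c] := by
  have h1 := ac_update1 ![a, b, c] (i := 1) (j := 2) (by decide) (b := b') h
  have e : update ![a, b, c] 1 b' = ![a, b', c] := by funext k; fin_cases k <;> simp
  rwa [e] at h1

theorem tr2 {a b c c' : G} (h : c⁻¹ * c' ∈ Subgroup.normalClosure {a}) :
    ACEquiv ![a, b, c] ![a, b, c'] := by
  have h1 := ac_update1 ![a, b, c] (i := 2) (j := 0) (by decide) (b := c') h
  have e : update ![a, b, c] 2 c' = ![a, b, c'] := by funext k; fin_cases k <;> simp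
  rwa [e] at h1

theorem tr2' {a b c c' : G} (h : c⁻¹ * c' ∈ Subgroup.normalClosure {b}) :
    ACEquiv ![a, b, c] ![a, b, c'] := by
  have h1 := ac_update1 ![a, b, c] (i := 2) (j := 1) (by decide) (b := c') h
  have e : update ![a, b, c] 2 c' = ![a, b, c'] := by funext k; fin_cases k <;> simp
  rwa [e] at h1

theorem tr_conj0 {a b c : G} (g : G) : ACEquiv ![a, b, c] ![g * a * g⁻¹, b, c] := by
  have h1 := ac_conj ![a, b, c] 0 g
  have e : update ![a, b, c] 0 (g * ![a, b, c] 0 * g⁻¹) = ![g * a * g⁻¹, b, c] := by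
    funext k; fin_cases k <;> simp
  rwa [e] at h1

theorem tr_inv0 {a b c : G} : ACEquiv ![a, b, c] ![a⁻¹, b, c] := by
  have h1 := ac_inv ![a, b, c] 0
  have e : update ![a, b, c] 0 (![a, b, c] 0)⁻¹ = ![a⁻¹, b, c] := by
    funext k; fin_cases k <;> simp
  rwa [e] at h1

theorem tr_inv1 {a b c : G} : ACEquiv ![a, b, c] ![a, b⁻¹, c] := by
  have h1 := ac_inv ![a, b, c] 1
  have e : update ![a, b, c] 1 (![a, b, c] 1)⁻¹ = ![a, b⁻¹, c] := by
    funext k; fin_cases k <;> simp
  rwa [e] at h1

theorem tr_inv2 {a b c : G} : ACEquiv ![a, b, c] ![a, b, c⁻¹] := by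
  have h1 := ac_inv ![a, b, c] 2
  have e : update ![a, b, c] 2 (![a, b, c] 2)⁻¹ = ![a, b, c⁻¹] := by
    funext k; fin_cases k <;> simp
  rwa [e] at h1

theorem tr_conj1 {a b c : G} (g : G) : ACEquiv ![a, b, c] ![a, g * b * g⁻¹, c] := by
  have h1 := ac_conj ![a, b, c] 1 g
  have e : update ![a, b, c] 1 (g * ![a, b, c] 1 * g⁻¹) = ![a, g * b * g⁻¹, c] := by
    funext k; fin_cases k <;> simp
  rwa [e] at h1

theorem tr_swap01 (a b c : G) : ACEquiv ![a, b, c] ![b, a, c] := by
  have h1 := ac_swap ![a, b, c] (i := 0) (j := 1) (by decide)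
  have e : update (update ![a, b, c] 0 (![a, b, c] 1)) 1 (![a, b, c] 0) = ![b, a, c] := by
    funext k; fin_cases k <;> simp
  rwa [e] at h1

theorem tr_swap12 (a b c : G) : ACEquiv ![a, b, c] ![a, c, b] := by
  have h1 := ac_swap ![a, b, c] (i := 1) (j := 2) (by decide)
  have e : update (update ![a, b, c] 1 (![a, b, c] 2)) 2 (![a, b, c] 1) = ![a, c, b] := by
    funext k; fin_cases k <;> simp
  rwa [e] at h1

/-- moves on a pair, with a third member added -/
theorem pair_to_triple {H : Type} [Group H] (f : G →* H) (m : H) {r s : Fin 2 → G}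
    (h : ACEquiv r s) : ACEquiv ![f (r 0), f (r 1), m] ![f (s 0), f (s 1), m] := by
  unfold ACEquiv at h
  induction h with
  | rel r s h =>
    cases h with
    | inv i =>
      fin_cases i
      · simpa using tr_inv0 (a := f (r 0)) (b := f (r 1)) (c := m)
      · simpa using tr_inv1 (a := f (r 0)) (b := f (r 1)) (c := m)
    | mul i j hij =>
      have h0 : ACEquiv ![f (r 0), f (r 1), m] ![f (r 0) * f (r 1), f (r 1), m] :=
        tr0 (by rw [inv_mul_cancel_left]; exact mem_self _)
      have h1 : ACEquiv ![f (r 0), f (r 1), m] ![f (r 0), f (r 1) * f (r 0), m] :=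
        tr1 (by rw [inv_mul_cancel_left]; exact mem_self _)
      fin_cases i <;> fin_cases j
      · exact absurd rfl hij
      · simpa using h0
      · simpa using h1
      · exact absurd rfl hij
    | conj i g =>
      fin_cases i
      · simpa using tr_conj0 (a := f (r 0)) (b := f (r 1)) (c := m) (f g)
      · simpa using tr_conj1 (a := f (r 0)) (b := f (r 1)) (c := m) (f g)
  | refl r => exact ACEquiv.refl _
  | symm r s _ ih => exact ih.symm
  | trans r s t _ _ ih1 ih2 => exact ih1.trans ih2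

end general

/-- The family is Andrews-Curtis trivial. -/
def ACTrivial {n : ℕ} (r : Fin n → FreeGroup (Fin n)) : Prop := ACEquiv r FreeGroup.of

/-- Stabilisation: add a new generator and this generator as a new relator. -/
def stab {n : ℕ} (r : Fin n → FreeGroup (Fin n)) : Fin (n + 1) → FreeGroup (Fin (n + 1)) :=
  Fin.snoc (α := fun _ => FreeGroup (Fin (n + 1)))
    (fun i => FreeGroup.map Fin.castSucc (r i)) (FreeGroup.of (Fin.last n))

theorem of_two : (FreeGroup.of : Fin 2 → F2) = ![x, y] := by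
  funext i; fin_cases i <;> rfl

theorem acTrivial_iff (r : Fin 2 → F2) : ACTrivial r ↔ Triv r := by
  unfold ACTrivial Triv; rw [of_two]

abbrev F3 : Type := FreeGroup (Fin 3)
def X : F3 := FreeGroup.of 0
def Y : F3 := FreeGroup.of 1
def Z : F3 := FreeGroup.of 2

theorem of_three : (FreeGroup.of : Fin 3 → F3) = ![X, Y, Z] := by
  funext i; fin_cases i <;> rfl

/-- the inclusion of the free group on two generators -/
noncomputable def up : F2 →* F3 := FreeGroup.map Fin.castSucc

@[simp] theorem up_x : up x = X := by simp [up, x, X]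
@[simp] theorem up_y : up y = Y := by simp [up, y, Y]

theorem stab_two (r : Fin 2 → F2) : stab r = ![up (r 0), up (r 1), Z] := by
  funext i
  fin_cases i
  · rfl
  · rfl
  · rfl

/-- substitution of three elements -/
noncomputable def sub3 {H : Type} [Group H] (a b c : H) : F3 →* H := FreeGroup.lift ![a, b, c]

@[simp] theorem sub3_X {H : Type} [Group H] (a b c : H) : sub3 a b c X = a := by simp [sub3, X]
@[simp] theorem sub3_Y {H : Type} [Group H] (a b c : H) : sub3 a b c Y = b := by simp [sub3, Y]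
@[simp] theorem sub3_Z {H : Type} [Group H] (a b c : H) : sub3 a b c Z = c := by simp [sub3, Z]

theorem hom_ext3 {H : Type} [Group H] {f g : F3 →* H} (hx : f X = g X) (hy : f Y = g Y)
    (hz : f Z = g Z) : f = g := by
  refine FreeGroup.ext_hom _ _ fun i => ?_
  fin_cases i
  · exact hx
  · exact hy
  · exact hz

theorem cong_sub3 {N : Subgroup F3} [N.Normal] {a b c : F3} (ha : X⁻¹ * a ∈ N) (hb : Y⁻¹ * b ∈ N)
    (hc : Z⁻¹ * c ∈ N) (p : F3) : p⁻¹ * sub3 a b c p ∈ N := by
  have h : (QuotientGroup.mk' N).comp (sub3 a b c) = QuotientGroup.mk' N := by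
    refine hom_ext3 ?_ ?_ ?_
    · rw [MonoidHom.comp_apply, sub3_X]
      exact (QuotientGroup.eq.2 ha).symm
    · rw [MonoidHom.comp_apply, sub3_Y]
      exact (QuotientGroup.eq.2 hb).symm
    · rw [MonoidHom.comp_apply, sub3_Z]
      exact (QuotientGroup.eq.2 hc).symm
  have h1 := DFunLike.congr_fun h p
  rw [MonoidHom.comp_apply] at h1
  exact QuotientGroup.eq.1 h1.symm

/-- the triple is Andrews-Curtis equivalent to `(X, Y, Z)` -/
def Triv3 (r : Fin 3 → F3) : Prop := ACEquiv r ![X, Y, Z]

theorem acTrivial_iff3 (r : Fin 3 → F3) : ACTrivial r ↔ Triv3 r := by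
  unfold ACTrivial Triv3; rw [of_three]

theorem triv3_map {a b c : F3} (h : Triv3 ![a, b, c]) {p q r : F3} (hr : Triv3 ![p, q, r]) :
    Triv3 ![sub3 a b c p, sub3 a b c q, sub3 a b c r] := by
  have h1 := ACEquiv.map (sub3 a b c) hr
  have e : (fun i => sub3 a b c (![X, Y, Z] i)) = ![a, b, c] := by
    funext i
    fin_cases i
    · exact sub3_X a b c
    · exact sub3_Y a b c
    · exact sub3_Z a b c
  have e2 : (fun i => sub3 a b c (![p, q, r] i)) = ![sub3 a b c p, sub3 a b c q, sub3 a b c r] := by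
    funext i
    fin_cases i <;> rfl
  rw [e, e2] at h1
  exact h1.trans h

/-- automorphisms given by two mutually inverse substitutions preserve triviality -/
theorem triv3_iff {a b c a' b' c' : F3} (h : Triv3 ![a, b, c]) (h' : Triv3 ![a', b', c'])
    (e1 : sub3 a' b' c' a = X) (e2 : sub3 a' b' c' b = Y) (e3 : sub3 a' b' c' c = Z)
    (p q r : F3) :
    Triv3 ![sub3 a b c p, sub3 a b c q, sub3 a b c r] ↔ Triv3 ![p, q, r] := by
  constructor
  · intro hr
    have h1 := triv3_map h' hr
    have e : (sub3 a' b' c').comp (sub3 a b c) = MonoidHom.id F3 := by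
      refine hom_ext3 ?_ ?_ ?_
      · rw [MonoidHom.comp_apply, sub3_X, e1]; rfl
      · rw [MonoidHom.comp_apply, sub3_Y, e2]; rfl
      · rw [MonoidHom.comp_apply, sub3_Z, e3]; rfl
    have e' : ∀ g, sub3 a' b' c' (sub3 a b c g) = g := fun g => DFunLike.congr_fun e g
    simpa only [e'] using h1
  · exact triv3_map h

theorem triv3_congr {r s : Fin 3 → F3} (h : ACEquiv r s) : Triv3 r ↔ Triv3 s :=
  ⟨fun h' => h.symm.trans h', fun h' => h.trans h'⟩

end Pool.Agent.Helper64.AC
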